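import Pool.Agent.W273.VR.Count

/-! The number of degrees in which the Vietoris-Rips complex of the cube `{0,1}^n` at scale `r`
has non-zero reduced homology is at least `2^(r-16) + 1` for all `r ≥ 17` and all `n ≥ r + 2`,
and at most `2^(n-1)`. -/

set_option autoImplicit false

namespace Pool.Agent.Results.MP_7cff07_gt.ManyDegrees

open Pool.Agent.W273.VR

/-- The number `N(n,r)` of degrees `q ≥ 0` in which the reduced integral homology of the
Vietoris-Rips complex of the cube `{0,1}^n` at scale `r` is non-zero. -/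
noncomputable def numDegrees (n r : ℕ) : ℕ :=
  Set.ncard {q : ℕ | HomologyNonzero (VRFace n r) q}

lemma lt_of_nontrivial {n r q : ℕ} (hr : r < n)
    (h : HomologyNonzero (VRFace n r) q) : q + 1 ≤ 2 ^ (n - 1) := by
  classical
  by_contra hcon
  have h0 : ∀ f : (Fin (q + 1) → (Fin n → Bool)) → ℤ, IsChain (VRFace n r) (q + 1) f → f = 0 := by
    intro f hf
    funext v
    by_contra hne
    have hv := hf.support v hne
    have hinj := hf.distinct v hne
    apply hcon
    set σ := Finset.univ.image v with hσ
    have hc : σ.card = q + 1 := by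
      rw [hσ, Finset.card_image_of_injective _ hinj, Finset.card_univ, Fintype.card_fin]
    have hd : Disjoint σ (σ.image neg) := by
      rw [Finset.disjoint_left]
      intro x hx hx'
      obtain ⟨y, hy, rfl⟩ := Finset.mem_image.1 hx'
      have h1 := hv.2 _ hx _ hy
      have h2 := hd_neg y y
      rw [hammingDist_self] at h2
      omega
    have h1 := Finset.card_le_univ (σ ∪ σ.image neg)
    have hni : Function.Injective (neg : (Fin n → Bool) → (Fin n → Bool)) :=
      fun x y h => by rw [← neg_neg' x, h, neg_neg']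
    have h3 : (σ.image neg).card = σ.card := Finset.card_image_of_injective _ hni
    rw [Finset.card_union_of_disjoint hd, h3, hc, Fintype.card_fun,
      Fintype.card_bool, Fintype.card_fin] at h1
    have h2 : (2 : ℕ) ^ n = 2 ^ (n - 1) * 2 := by
      rw [← pow_succ]
      congr 1
      omega
    omega
  obtain ⟨z, hz, -, hz'⟩ := h
  refine hz' 0 ⟨fun v h => absurd rfl h, fun v h => absurd rfl h, fun v σ => by simp⟩ ?_
  rw [h0 z hz]
  funext v
  unfold boundary
  simp

lemma upper {n r : ℕ} (hr : r < n) :
    {q : ℕ | HomologyNonzero (VRFace n r) q} ⊆ ↑(Finset.range (2 ^ (n - 1))) := by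
  intro q hq
  have := lt_of_nontrivial hr hq
  rw [Finset.coe_range]
  exact Set.mem_Iio.2 (by omega)

lemma lower {a b : ℕ} (D : Data b) (ha : Even a) (ha0 : 0 < a) (m k : ℕ) (hm : b = m + 4) :
    2 ^ (a - 1) + 1 ≤ numDegrees (a + b + k) (a + b - 2) := by
  classical
  unfold numDegrees
  have hfin := (Finset.range (2 ^ (a + b + k - 1))).finite_toSet.subset
    (upper (n := a + b + k) (r := a + b - 2) (by omega))
  let S := (Finset.range (2 ^ (a - 1) + 1)).image fun j => 2 ^ m * (2 ^ a + 2 * j) - 1
  have hpos : ∀ j, 0 < 2 ^ m * (2 ^ a + 2 * j) := fun j => by positivity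
  have hS : S.card = 2 ^ (a - 1) + 1 := by
    rw [Finset.card_image_of_injective, Finset.card_range]
    intro i j hij
    have h1 : 2 ^ m * (2 ^ a + 2 * i) = 2 ^ m * (2 ^ a + 2 * j) := by
      have := hpos i
      have := hpos j
      simp only at hij
      omega
    have h2 := Nat.eq_of_mul_eq_mul_left (by positivity) h1
    omega
  rw [← hS, ← Set.ncard_coe_finset]
  refine Set.ncard_le_ncard ?_ hfin
  intro q hq
  obtain ⟨j, hj, rfl⟩ := Finset.mem_image.1 (Finset.mem_coe.1 hq)
  have hj' : j ≤ 2 ^ (a - 1) := by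
    have := Finset.mem_range.1 hj
    omega
  refine nontrivial_data D ha ⟨0, ha0⟩ m k j _ hm hj' ?_
  have := hpos j
  omega

/-- For all `r ≥ 17` and `n ≥ r + 2` the number `N(n,r)` of degrees in which the
Vietoris-Rips complex of the `n`-cube at scale `r` has non-zero reduced homology satisfies
`2^(r-16) + 1 ≤ N(n,r) ≤ 2^(n-1)`. -/
theorem result : ∀ r n : ℕ, 17 ≤ r → r + 2 ≤ n →
    2 ^ (r - 16) + 1 ≤ numDegrees n r ∧ numDegrees n r ≤ 2 ^ (n - 1) := by
  intro r n hr hn
  constructor
  · rcases Nat.even_or_odd r with he | ho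
    · have h1 := lower D14 (a := r - 12) (by
        obtain ⟨t, rfl⟩ := he
        exact ⟨t - 6, by omega⟩) (by omega) 10 (n - (r + 2)) rfl
      have e1 : r - 12 + 14 + (n - (r + 2)) = n := by omega
      have e2 : r - 12 + 14 - 2 = r := by omega
      rw [e1, e2] at h1
      have h2 : (2 : ℕ) ^ (r - 16) ≤ 2 ^ (r - 12 - 1) :=
        Nat.pow_le_pow_right (by norm_num) (by omega)
      omega
    · have h1 := lower D17 (a := r - 15) (by
        obtain ⟨t, rfl⟩ := ho
        exact ⟨t - 7, by omega⟩) (by omega) 13 (n - (r + 2)) rfl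
      have e1 : r - 15 + 17 + (n - (r + 2)) = n := by omega
      have e2 : r - 15 + 17 - 2 = r := by omega
      rw [e1, e2] at h1
      have h2 : r - 16 = r - 15 - 1 := by omega
      rw [h2]
      exact h1
  · unfold numDegrees
    have h1 := Set.ncard_le_ncard (upper (n := n) (r := r) (by omega))
      (Finset.finite_toSet _)
    rwa [Set.ncard_coe_finset, Finset.card_range] at h1

end Pool.Agent.Results.MP_7cff07_gt.ManyDegrees
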